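import Pool.Agent.J4H32.MV.S1

/-!
# Project MV: telescoping (TE)
-/

set_option autoImplicit false

namespace Pool.Agent.J4H19.MV

open Finset MeasureTheory
open Pool.Agent.J4H81.PT (hat cx)
open Pool.Agent.J4H32.MV

theorem tele (K : ℕ) (f g : Fin K → ℝ) : ∏ j, f j - ∏ j, g j =
    ∑ i, ((∏ j ∈ univ.filter (fun j => j < i), g j) *
      ∏ j ∈ univ.filter (fun j => i < j), f j) * (f i - g i) := by
  have h := Finset.prod_sub_ordered (univ : Finset (Fin K)) f (fun j => f j - g j)
  simp only [sub_sub_cancel] at h
  rw [h, sub_sub_cancel]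
  exact sum_congr rfl fun i _ => by ring

theorem card_others (K T : ℕ) (i : Fin K) :
    (Fintype.piFinset (fun j : Fin K => if j = i then ({0} : Finset ℕ) else range T)).card =
      T ^ (K - 1) := by
  rw [Fintype.card_piFinset]
  have h : ∀ j : Fin K, (if j = i then ({0} : Finset ℕ) else range T).card =
      if j = i then 1 else T := by
    intro j
    split_ifs <;> simp
  simp_rw [h]
  rw [Finset.prod_ite, prod_const_one, one_mul, prod_const, Finset.filter_not,
    Finset.filter_eq', if_pos (mem_univ i), Finset.card_sdiff_of_subset (by simp)]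
  simp

/-- the fibres of the set of bad tuples -/
theorem fibre (K T : ℕ) (i : Fin K) (Bad : Finset (Fin K → ℕ)) (B : ℝ)
    (hBad : ∀ t ∈ Bad, ∀ j, t j < T)
    (h : ∀ t' : Fin K → ℕ, ∃ Ex : Finset ℕ, (Ex.card : ℝ) ≤ B ∧
      ∀ t ∈ Bad, Function.update t i 0 = t' → t i ∈ Ex) :
    (Bad.card : ℝ) ≤ B * (T : ℝ) ^ (K - 1) := by
  classical
  choose Ex hEx hEx' using h
  have h1 := Finset.card_eq_sum_card_fiberwise (s := Bad) (f := fun t => Function.update t i 0)
    (t := Fintype.piFinset (fun j : Fin K => if j = i then ({0} : Finset ℕ) else range T)) (by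
      intro t ht
      rw [Finset.mem_coe, Fintype.mem_piFinset]
      intro j
      change Function.update t i 0 j ∈ _
      by_cases hj : j = i
      · subst hj
        simp
      · rw [if_neg hj, Function.update_of_ne hj]
        exact mem_range.2 (hBad t ht j))
  rw [h1]
  push_cast
  calc ∑ t' ∈ Fintype.piFinset (fun j : Fin K => if j = i then ({0} : Finset ℕ) else range T),
      ((Bad.filter (fun t => Function.update t i 0 = t')).card : ℝ) ≤
      ∑ t' ∈ Fintype.piFinset (fun j : Fin K => if j = i then ({0} : Finset ℕ) else range T), B := by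
        refine sum_le_sum fun t' _ => ?_
        refine le_trans ?_ (hEx t')
        have h2 : (Bad.filter (fun t => Function.update t i 0 = t')).card ≤ (Ex t').card := by
          apply Finset.card_le_card_of_injOn (fun t => t i)
          · intro t ht
            rw [Finset.mem_coe, mem_filter] at ht
            exact hEx' t' t ht.1 ht.2
          · intro t ht u hu htu
            rw [Finset.mem_coe, mem_filter] at ht hu
            have h3 : Function.update t i 0 = Function.update u i 0 := ht.2.trans hu.2.symm
            funext j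
            by_cases hj : j = i
            · subst hj
              exact htu
            · have h4 := congrFun h3 j
              rwa [Function.update_of_ne hj, Function.update_of_ne hj] at h4
        exact_mod_cast h2
    _ = B * (T : ℝ) ^ (K - 1) := by
        rw [sum_const, card_others, nsmul_eq_mul]
        push_cast
        ring

theorem t_TE : S_FR → S_TE := by
  intro hFR K T S₀ F g A E m a τ hA hST hF hg hm hτ hE hmin hsq
  classical
  set R : ℝ := Real.sqrt (E * a) + τ with hR
  set G : Fin K → (Fin K → ℕ) → ℕ → ℝ := fun i t s =>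
    if s < S₀ then (∏ j ∈ univ.filter (fun j => j < i), g j (s + t j)) *
      ∏ j ∈ univ.filter (fun j => i < j), F j (s + t j) else 0 with hG
  set Bd : Fin K → Finset (Fin K → ℕ) := fun i =>
    (Fintype.piFinset (fun _ : Fin K => range T)).filter (fun t =>
      R < |∑ s ∈ range T, G i t s * (F i (s + t i) - g i (s + t i))|) with hBd
  have hGupd : ∀ i t, G i (Function.update t i 0) = G i t := by
    intro i t
    funext s
    simp only [hG]
    congr 1
    congr 1
    · refine prod_congr rfl fun j hj => ?_
      rw [Function.update_of_ne (mem_filter.1 hj).2.ne]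
    · refine prod_congr rfl fun j hj => ?_
      rw [Function.update_of_ne (mem_filter.1 hj).2.ne']
  have hcard : ∀ i, ((Bd i).card : ℝ) ≤ (2 * m ^ 2 * a / τ ^ 2) * (T : ℝ) ^ (K - 1) := by
    intro i
    refine fibre K T i (Bd i) _ ?_ ?_
    · intro t ht j
      rw [hBd, mem_filter, Fintype.mem_piFinset] at ht
      exact mem_range.1 (ht.1 j)
    · intro t'
      obtain ⟨Ex, h1, h2⟩ := hFR T (fun s => F i s - g i s) (G i t') A E m a τ hA
        (fun s hs => by rw [hF i s hs, hg i s hs, sub_zero]) hm hτ (hE i) (hmin i) (by
          refine le_trans (sum_le_sum fun s _ => ?_) (hsq i t')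
          simp only [hG]
          split_ifs with hs
          · exact le_rfl
          · rw [zero_pow two_ne_zero]
            positivity)
      refine ⟨Ex, h1, fun t ht htt => ?_⟩
      by_contra hcon
      rw [hBd, mem_filter, Fintype.mem_piFinset] at ht
      have h3 := h2 (t i) (mem_range.1 (ht.1 i)) hcon
      rw [← htt, hGupd] at h3
      exact absurd ht.2 (not_lt.2 h3)
  have hsub : (Fintype.piFinset (fun _ : Fin K => range T)).filter (fun t =>
      K * R < |∑ s ∈ range S₀, (∏ j, F j (s + t j) - ∏ j, g j (s + t j))|) ⊆
      univ.biUnion Bd := by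
    intro t ht
    rw [mem_filter] at ht
    by_contra hcon
    rw [mem_biUnion] at hcon
    push Not at hcon
    have h1 : ∀ i, |∑ s ∈ range T, G i t s * (F i (s + t i) - g i (s + t i))| ≤ R := by
      intro i
      by_contra h2
      push Not at h2
      exact hcon i (mem_univ i) (by rw [hBd, mem_filter]; exact ⟨ht.1, h2⟩)
    have h2 : ∑ s ∈ range S₀, (∏ j, F j (s + t j) - ∏ j, g j (s + t j)) =
        ∑ i, ∑ s ∈ range T, G i t s * (F i (s + t i) - g i (s + t i)) := by
      rw [sum_comm]
      rw [← Finset.sum_subset (range_subset_range.2 hST)]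
      · refine sum_congr rfl fun s hs => ?_
        rw [tele K (fun j => F j (s + t j)) (fun j => g j (s + t j))]
        refine sum_congr rfl fun i _ => ?_
        simp only [hG]
        rw [if_pos (mem_range.1 hs)]
      · intro s _ hs
        refine sum_eq_zero fun i _ => ?_
        simp only [hG]
        rw [if_neg (by simpa using hs), zero_mul]
    have h3 : |∑ s ∈ range S₀, (∏ j, F j (s + t j) - ∏ j, g j (s + t j))| ≤ K * R := by
      rw [h2]
      calc _ ≤ ∑ i, |∑ s ∈ range T, G i t s * (F i (s + t i) - g i (s + t i))| :=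
            abs_sum_le_sum_abs _ _
        _ ≤ ∑ i : Fin K, R := sum_le_sum fun i _ => h1 i
        _ = K * R := by simp
    exact absurd ht.2 (not_lt.2 h3)
  calc (((Fintype.piFinset (fun _ : Fin K => range T)).filter (fun t =>
      K * R < |∑ s ∈ range S₀, (∏ j, F j (s + t j) - ∏ j, g j (s + t j))|)).card : ℝ)
      ≤ ((univ.biUnion Bd).card : ℝ) := by exact_mod_cast card_le_card hsub
    _ ≤ ∑ i, ((Bd i).card : ℝ) := by exact_mod_cast card_biUnion_le
    _ ≤ ∑ i : Fin K, (2 * m ^ 2 * a / τ ^ 2) * (T : ℝ) ^ (K - 1) := sum_le_sum fun i _ => hcard i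
    _ = _ := by
      rw [sum_const, card_univ, Fintype.card_fin, nsmul_eq_mul]
      ring

end Pool.Agent.J4H19.MV
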