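import Pool.Agent.J4H32.MV.S5

/-!
# Project MV: few vectors of shifts have a difference with many prime factors (BD)
-/

set_option autoImplicit false

namespace Pool.Agent.J4H19.MV

open Finset
open Pool.Agent.J4H32.MV

theorem card_othersG (K : ℕ) (J : Finset ℕ) (i : Fin K) :
    (Fintype.piFinset (fun j : Fin K => if j = i then ({0} : Finset ℕ) else J)).card =
      J.card ^ (K - 1) := by
  rw [Fintype.card_piFinset]
  have h : ∀ j : Fin K, (if j = i then ({0} : Finset ℕ) else J).card =
      if j = i then 1 else J.card := by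
    intro j
    split_ifs <;> simp
  simp_rw [h]
  rw [Finset.prod_ite, prod_const_one, one_mul, prod_const, Finset.filter_not,
    Finset.filter_eq', if_pos (mem_univ i), Finset.card_sdiff_of_subset (by simp)]
  simp

/-- the fibres of a set of tuples -/
theorem fibreG (K : ℕ) (J : Finset ℕ) (i : Fin K) (Bad : Finset (Fin K → ℕ)) (B : ℝ)
    (hBad : ∀ t ∈ Bad, ∀ j, t j ∈ J)
    (h : ∀ t' : Fin K → ℕ, ∃ Ex : Finset ℕ, (Ex.card : ℝ) ≤ B ∧
      ∀ t ∈ Bad, Function.update t i 0 = t' → t i ∈ Ex) :
    (Bad.card : ℝ) ≤ B * (J.card : ℝ) ^ (K - 1) := by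
  classical
  choose Ex hEx hEx' using h
  have h1 := Finset.card_eq_sum_card_fiberwise (s := Bad) (f := fun t => Function.update t i 0)
    (t := Fintype.piFinset (fun j : Fin K => if j = i then ({0} : Finset ℕ) else J)) (by
      intro t ht
      rw [Finset.mem_coe, Fintype.mem_piFinset]
      intro j
      change Function.update t i 0 j ∈ _
      by_cases hj : j = i
      · subst hj
        simp
      · rw [if_neg hj, Function.update_of_ne hj]
        exact hBad t ht j)
  rw [h1]
  push_cast
  calc ∑ t' ∈ Fintype.piFinset (fun j : Fin K => if j = i then ({0} : Finset ℕ) else J),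
      ((Bad.filter (fun t => Function.update t i 0 = t')).card : ℝ) ≤
      ∑ t' ∈ Fintype.piFinset (fun j : Fin K => if j = i then ({0} : Finset ℕ) else J), B := by
        refine sum_le_sum fun t' _ => ?_
        refine le_trans ?_ (hEx t')
        have h2 : (Bad.filter (fun t => Function.update t i 0 = t')).card ≤ (Ex t').card := by
          apply Finset.card_le_card_of_injOn (fun t => t i)
          · intro t ht
            rw [Finset.mem_coe, mem_filter] at ht
            exact hEx' t' t ht.1 ht.2
          · intro t ht u hu htu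
            rw [Finset.mem_coe, mem_filter] at ht hu
            have h3 : Function.update t i 0 = Function.update u i 0 := ht.2.trans hu.2.symm
            funext j
            by_cases hj : j = i
            · subst hj
              exact htu
            · have h4 := congrFun h3 j
              rwa [Function.update_of_ne hj, Function.update_of_ne hj] at h4
        exact_mod_cast h2
    _ = B * (J.card : ℝ) ^ (K - 1) := by
        rw [sum_const, card_othersG, nsmul_eq_mul]
        push_cast
        ring

theorem Sg_neg (w : ℕ) (h : ℤ) : Sg w (-h) = Sg w h := by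
  unfold Sg
  rw [Int.natAbs_neg]

/-- one free shift -/
theorem one_shift (hRK : S_RK) (w X c : ℕ) (ε : ℝ) (hw : 1 ≤ w) :
    (((Icc 1 X).filter (fun x : ℕ => c ≤ X ∧ (x = c ∨ ε < Sg w ((x : ℤ) - c)))).card : ℝ) ≤
      1 + 16 * X * Real.exp (-(ε * w)) := by
  classical
  have h0 := hRK w X ε hw
  set D : Finset ℕ := (Icc 1 X).filter (fun h : ℕ => ε < Sg w (h : ℤ)) with hD
  have hsub : (Icc 1 X).filter (fun x : ℕ => c ≤ X ∧ (x = c ∨ ε < Sg w ((x : ℤ) - c))) ⊆
      {c} ∪ (D.image (fun h => c + h) ∪ D.image (fun h => c - h)) := by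
    intro x hx
    rw [mem_filter, mem_Icc] at hx
    obtain ⟨⟨hx1, hx2⟩, hc, hx3⟩ := hx
    rcases lt_trichotomy x c with h | h | h
    · refine mem_union_right _ (mem_union_right _ (mem_image.2 ⟨c - x, ?_, by omega⟩))
      rw [hD, mem_filter, mem_Icc]
      refine ⟨⟨by omega, by omega⟩, ?_⟩
      rcases hx3 with h3 | h3
      · omega
      · rw [Nat.cast_sub h.le]
        rwa [← Sg_neg, neg_sub] at h3
    · exact mem_union_left _ (mem_singleton.2 h)
    · refine mem_union_right _ (mem_union_left _ (mem_image.2 ⟨x - c, ?_, by omega⟩))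
      rw [hD, mem_filter, mem_Icc]
      refine ⟨⟨by omega, by omega⟩, ?_⟩
      rcases hx3 with h3 | h3
      · omega
      · rwa [Nat.cast_sub h.le]
  have h1 := card_le_card hsub
  have h2 : (({c} : Finset ℕ) ∪ (D.image (fun h => c + h) ∪ D.image (fun h => c - h))).card ≤
      1 + (D.card + D.card) := by
    refine (card_union_le _ _).trans (add_le_add (by simp) ((card_union_le _ _).trans ?_))
    exact add_le_add card_image_le card_image_le
  have h3 : (((Icc 1 X).filter (fun x : ℕ => c ≤ X ∧ (x = c ∨ ε < Sg w ((x : ℤ) - c)))).card : ℝ) ≤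
      1 + (D.card + D.card) := by exact_mod_cast h1.trans h2
  linarith

open Classical in
/-- one ordered pair, the first one is a free shift -/
theorem one_pair (hRK : S_RK) (k w X : ℕ) (ε : ℝ) (hw : 1 ≤ w) (hX : 1 ≤ X) (i : Fin k)
    (j : Fin (k + 1)) (hij : i.succ ≠ j) :
    (((Fintype.piFinset (fun _ : Fin k => Icc 1 X)).filter (fun m =>
      aa m i.succ = aa m j ∨ ε < Sg w ((aa m i.succ : ℤ) - aa m j))).card : ℝ) ≤
    (X : ℝ) ^ k / X + 16 * (X : ℝ) ^ k * Real.exp (-(ε * w)) := by
  have hX0 : (0 : ℝ) < X := by exact_mod_cast hX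
  have hk : 1 ≤ k := Nat.one_le_iff_ne_zero.2 (by rintro rfl; exact i.elim0)
  have hle : ∀ m ∈ Fintype.piFinset (fun _ : Fin k => Icc 1 X), aa m j ≤ X := by
    intro m hm
    rw [Fintype.mem_piFinset] at hm
    refine Fin.cases ?_ (fun l => ?_) j
    · exact Nat.zero_le _
    · exact (mem_Icc.1 (hm l)).2
  have hupd : ∀ m : Fin k → ℕ, aa (Function.update m i 0) j = aa m j := by
    intro m
    revert hij
    refine Fin.cases ?_ (fun l => ?_) j
    · intro _
      rfl
    · intro hl
      have hl' : l ≠ i := fun h => hl (by rw [h])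
      change Function.update m i 0 l = m l
      rw [Function.update_of_ne hl']
  have h1 := fibreG k (Icc 1 X) i ((Fintype.piFinset (fun _ : Fin k => Icc 1 X)).filter (fun m =>
      aa m i.succ = aa m j ∨ ε < Sg w ((aa m i.succ : ℤ) - aa m j)))
    (1 + 16 * X * Real.exp (-(ε * w))) (by
      intro t ht l
      exact (Fintype.mem_piFinset.1 (mem_filter.1 ht).1) l) (by
      intro t'
      refine ⟨_, one_shift hRK w X (aa t' j) ε hw, ?_⟩
      intro t ht htt
      rw [mem_filter] at ht
      rw [mem_filter]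
      have h2 : aa t' j = aa t j := by rw [← htt, hupd]
      have h3 : aa t i.succ = t i := rfl
      rw [h2]
      refine ⟨(Fintype.mem_piFinset.1 ht.1) i, hle t ht.1, ?_⟩
      rw [h3] at ht
      exact ht.2)
  rw [Nat.card_Icc, Nat.add_sub_cancel] at h1
  refine h1.trans (le_of_eq ?_)
  obtain ⟨l, rfl⟩ := Nat.exists_eq_succ_of_ne_zero (Nat.one_le_iff_ne_zero.1 hk)
  rw [Nat.succ_eq_add_one, Nat.add_sub_cancel, pow_succ]
  field_simp

theorem t_BD : S_RK → S_BD := by
  intro hRK k w X ε hw hX
  classical
  have hX0 : (0 : ℝ) < X := by exact_mod_cast hX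
  set B : ℝ := (X : ℝ) ^ k / X + 16 * (X : ℝ) ^ k * Real.exp (-(ε * w)) with hB
  have hB0 : 0 ≤ B := by positivity
  set Bd : Fin (k + 1) × Fin (k + 1) → Finset (Fin k → ℕ) := fun p =>
    (Fintype.piFinset (fun _ : Fin k => Icc 1 X)).filter (fun m => p.1 ≠ p.2 ∧
      (aa m p.1 = aa m p.2 ∨ ε < Sg w ((aa m p.1 : ℤ) - aa m p.2))) with hBd
  have hone : ∀ p, ((Bd p).card : ℝ) ≤ B := by
    rintro ⟨i, j⟩
    by_cases hij : i = j
    · have : Bd (i, j) = ∅ := by
        rw [hBd]
        apply Finset.filter_eq_empty_iff.2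
        intro m _ h
        exact h.1 hij
      rw [this]
      simpa using hB0
    · revert hij
      refine Fin.cases ?_ (fun i' => ?_) i
      · intro hij
        obtain ⟨j', rfl⟩ : ∃ j', j = Fin.succ j' := Fin.exists_succ_eq.2 (Ne.symm hij)|>.imp
          fun _ h => h.symm
        refine le_trans ?_ (one_pair hRK k w X ε hw hX j' 0 (Ne.symm hij))
        have : Bd (0, Fin.succ j') ⊆ (Fintype.piFinset (fun _ : Fin k => Icc 1 X)).filter (fun m =>
            aa m j'.succ = aa m 0 ∨ ε < Sg w ((aa m j'.succ : ℤ) - aa m 0)) := by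
          intro m hm
          rw [hBd, mem_filter] at hm
          rw [mem_filter]
          refine ⟨hm.1, ?_⟩
          rcases hm.2.2 with h | h
          · exact Or.inl h.symm
          · right
            rwa [← Sg_neg, neg_sub] at h
        exact_mod_cast card_le_card this
      · intro hij
        refine le_trans ?_ (one_pair hRK k w X ε hw hX i' j hij)
        have : Bd (Fin.succ i', j) ⊆ (Fintype.piFinset (fun _ : Fin k => Icc 1 X)).filter (fun m =>
            aa m i'.succ = aa m j ∨ ε < Sg w ((aa m i'.succ : ℤ) - aa m j)) := by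
          intro m hm
          rw [hBd, mem_filter] at hm
          rw [mem_filter]
          exact ⟨hm.1, hm.2.2⟩
        exact_mod_cast card_le_card this
  have hsub : (Fintype.piFinset (fun _ : Fin k => Icc 1 X)).filter (fun m =>
      ∃ i j : Fin (k + 1), i ≠ j ∧
        (aa m i = aa m j ∨ ε < Sg w ((aa m i : ℤ) - aa m j))) ⊆ univ.biUnion Bd := by
    intro m hm
    rw [mem_filter] at hm
    obtain ⟨hm1, i, j, hij, h⟩ := hm
    rw [mem_biUnion]
    refine ⟨(i, j), mem_univ _, ?_⟩
    rw [hBd, mem_filter]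
    exact ⟨hm1, hij, h⟩
  calc (((Fintype.piFinset (fun _ : Fin k => Icc 1 X)).filter (fun m =>
      ∃ i j : Fin (k + 1), i ≠ j ∧
        (aa m i = aa m j ∨ ε < Sg w ((aa m i : ℤ) - aa m j)))).card : ℝ)
      ≤ ((univ.biUnion Bd).card : ℝ) := by exact_mod_cast card_le_card hsub
    _ ≤ ∑ p, ((Bd p).card : ℝ) := by exact_mod_cast card_biUnion_le
    _ ≤ ∑ p : Fin (k + 1) × Fin (k + 1), B := sum_le_sum fun p _ => hone p
    _ = ((k : ℝ) + 1) ^ 2 * B := by
      rw [sum_const, card_univ, Fintype.card_prod, Fintype.card_fin, nsmul_eq_mul]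
      push_cast
      ring

end Pool.Agent.J4H19.MV
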