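import Pool.Agent.J4H32.MV.S1

/-!
# Project MV: one free shift (FR)
-/

set_option autoImplicit false

namespace Pool.Agent.J4H19.MV

open Finset MeasureTheory
open Pool.Agent.J4H81.PT (hat cx hat_cont parseval bessel int_ee ee_neg ee_cont)
open Pool.Agent.H807R2.Dav (ee norm_ee ee_add ee_zero)
open Pool.Agent.J4H32.MV

/-- the product of two Fourier transforms -/
theorem cross (G H : ℕ → ℝ) (T : ℕ) (hH : ∀ s, T ≤ s → H s = 0) (D : ℕ) :
    ∫ α in (0 : ℝ)..1, (hat (cx G) T α * (starRingEnd ℂ) (hat (cx H) T α)) * ee (D * α) =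
      ((∑ s ∈ range T, G s * H (s + D) : ℝ) : ℂ) := by
  have e : ∀ α : ℝ, (hat (cx G) T α * (starRingEnd ℂ) (hat (cx H) T α)) * ee (D * α) =
      ∑ s ∈ range T, ∑ t ∈ range T, (G s : ℂ) * (H t : ℂ) * ee (((s : ℤ) - t + D : ℤ) * α) := by
    intro α
    unfold hat cx
    rw [map_sum, sum_mul_sum, sum_mul]
    refine sum_congr rfl fun s _ => ?_
    rw [sum_mul]
    refine sum_congr rfl fun t _ => ?_
    rw [map_mul, ← ee_neg, Complex.conj_ofReal]
    have : ee ((((s : ℤ) - t + D : ℤ) : ℝ) * α) = ee (s * α) * ee (-(t * α)) * ee (D * α) := by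
      rw [← ee_add, ← ee_add]; congr 1; push_cast; ring
    rw [this]
    ring
  simp_rw [e]
  rw [intervalIntegral.integral_finsetSum]
  · rw [Complex.ofReal_sum]
    refine sum_congr rfl fun s _ => ?_
    rw [Complex.ofReal_mul, intervalIntegral.integral_finsetSum]
    · simp_rw [intervalIntegral.integral_const_mul, int_ee]
      by_cases h : s + D < T
      · rw [sum_eq_single (s + D)]
        · rw [if_pos (by push_cast; ring), mul_one]
        · intro t _ ht
          rw [if_neg (by omega), mul_zero]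
        · intro h2
          exact absurd (mem_range.2 h) h2
      · rw [hH (s + D) (by omega), Complex.ofReal_zero, mul_zero]
        apply sum_eq_zero
        intro t ht
        rw [mem_range] at ht
        rw [if_neg (by omega), mul_zero]
    · intro t _
      exact (continuous_const.mul (ee_cont.comp (by fun_prop))).intervalIntegrable _ _
  · intro s _
    exact (continuous_finsetSum _ fun t _ => continuous_const.mul
      (ee_cont.comp (by fun_prop))).intervalIntegrable _ _

/-- Bessel's inequality for complex functions, with a constant -/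
theorem bessel2 (ψ : ℝ → ℂ) (hψ : IntervalIntegrable ψ volume 0 1)
    (hψ2 : IntervalIntegrable (fun α => ‖ψ α‖ ^ 2) volume 0 1) (hm : Measurable ψ) (S : Finset ℕ) :
    ∑ D ∈ S, ‖∫ α in (0 : ℝ)..1, ψ α * ee (D * α)‖ ^ 2 ≤ 2 * ∫ α in (0 : ℝ)..1, ‖ψ α‖ ^ 2 := by
  have hu : IntervalIntegrable (fun α => (ψ α).re) volume 0 1 := ⟨hψ.1.re, hψ.2.re⟩
  have hv : IntervalIntegrable (fun α => (ψ α).im) volume 0 1 := ⟨hψ.1.im, hψ.2.im⟩
  have hum : Measurable fun α => (ψ α).re := Complex.measurable_re.comp hm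
  have hvm : Measurable fun α => (ψ α).im := Complex.measurable_im.comp hm
  have hsq : ∀ z : ℂ, ‖z‖ ^ 2 = z.re ^ 2 + z.im ^ 2 := by
    intro z
    rw [← Complex.normSq_eq_norm_sq, Complex.normSq_apply]; ring
  have hu2 : IntervalIntegrable (fun α => (ψ α).re ^ 2) volume 0 1 := by
    refine hψ2.mono_fun (hum.pow_const 2).aestronglyMeasurable (Filter.Eventually.of_forall fun α => ?_)
    simp only
    rw [hsq, Real.norm_eq_abs, Real.norm_eq_abs, abs_of_nonneg (by positivity),
      abs_of_nonneg (by positivity)]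
    nlinarith [sq_nonneg (ψ α).im]
  have hv2 : IntervalIntegrable (fun α => (ψ α).im ^ 2) volume 0 1 := by
    refine hψ2.mono_fun (hvm.pow_const 2).aestronglyMeasurable (Filter.Eventually.of_forall fun α => ?_)
    simp only
    rw [hsq, Real.norm_eq_abs, Real.norm_eq_abs, abs_of_nonneg (by positivity),
      abs_of_nonneg (by positivity)]
    nlinarith [sq_nonneg (ψ α).re]
  have b1 := bessel _ hu hu2 S
  have b2 := bessel _ hv hv2 S
  have hdec : ∀ D : ℕ, ∫ α in (0 : ℝ)..1, ψ α * ee (D * α) =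
      (∫ α in (0 : ℝ)..1, (((ψ α).re : ℝ) : ℂ) * ee (D * α)) +
        Complex.I * ∫ α in (0 : ℝ)..1, (((ψ α).im : ℝ) : ℂ) * ee (D * α) := by
    intro D
    have hee : Continuous (fun α : ℝ => ee (D * α)) := ee_cont.comp (by fun_prop)
    have j1 : IntervalIntegrable (fun α => (((ψ α).re : ℝ) : ℂ) * ee (D * α)) volume 0 1 :=
      IntervalIntegrable.mul_continuousOn ⟨hu.1.ofReal, hu.2.ofReal⟩ hee.continuousOn
    have j2 : IntervalIntegrable (fun α => (((ψ α).im : ℝ) : ℂ) * ee (D * α)) volume 0 1 :=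
      IntervalIntegrable.mul_continuousOn ⟨hv.1.ofReal, hv.2.ofReal⟩ hee.continuousOn
    rw [← intervalIntegral.integral_const_mul, ← intervalIntegral.integral_add j1 (j2.const_mul _)]
    refine intervalIntegral.integral_congr fun α _ => ?_
    conv_lhs => rw [← Complex.re_add_im (ψ α)]
    ring
  calc ∑ D ∈ S, ‖∫ α in (0 : ℝ)..1, ψ α * ee (D * α)‖ ^ 2
      ≤ ∑ D ∈ S, (2 * ‖∫ α in (0 : ℝ)..1, (((ψ α).re : ℝ) : ℂ) * ee (D * α)‖ ^ 2 +
        2 * ‖∫ α in (0 : ℝ)..1, (((ψ α).im : ℝ) : ℂ) * ee (D * α)‖ ^ 2) := by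
        refine sum_le_sum fun D _ => ?_
        rw [hdec D]
        set x := ∫ α in (0 : ℝ)..1, (((ψ α).re : ℝ) : ℂ) * ee (D * α)
        set y := ∫ α in (0 : ℝ)..1, (((ψ α).im : ℝ) : ℂ) * ee (D * α)
        have h1 : ‖x + Complex.I * y‖ ≤ ‖x‖ + ‖y‖ := by
          refine (norm_add_le _ _).trans ?_
          rw [norm_mul, Complex.norm_I, one_mul]
        have h2 : ‖x + Complex.I * y‖ ^ 2 ≤ (‖x‖ + ‖y‖) ^ 2 :=
          pow_le_pow_left₀ (norm_nonneg _) h1 2
        nlinarith [sq_nonneg (‖x‖ - ‖y‖)]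
    _ = 2 * ∑ D ∈ S, ‖∫ α in (0 : ℝ)..1, (((ψ α).re : ℝ) : ℂ) * ee (D * α)‖ ^ 2 +
        2 * ∑ D ∈ S, ‖∫ α in (0 : ℝ)..1, (((ψ α).im : ℝ) : ℂ) * ee (D * α)‖ ^ 2 := by
        rw [sum_add_distrib, mul_sum, mul_sum]
    _ ≤ 2 * (∫ α in (0 : ℝ)..1, (ψ α).re ^ 2) + 2 * (∫ α in (0 : ℝ)..1, (ψ α).im ^ 2) := by
        gcongr
    _ = 2 * ∫ α in (0 : ℝ)..1, ‖ψ α‖ ^ 2 := by
        rw [← mul_add, ← intervalIntegral.integral_add hu2 hv2]
        congr 1
        refine intervalIntegral.integral_congr fun α _ => ?_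
        rw [hsq]

/-- Cauchy-Schwarz -/
theorem cs (f g : ℝ → ℝ) (hf : IntervalIntegrable (fun α => f α ^ 2) volume 0 1)
    (hg : IntervalIntegrable (fun α => g α ^ 2) volume 0 1)
    (hfg : IntervalIntegrable (fun α => f α * g α) volume 0 1) {P Q : ℝ}
    (hP : ∫ α in (0 : ℝ)..1, f α ^ 2 ≤ P) (hQ : ∫ α in (0 : ℝ)..1, g α ^ 2 ≤ Q) :
    ∫ α in (0 : ℝ)..1, f α * g α ≤ Real.sqrt (P * Q) := by
  set p := ∫ α in (0 : ℝ)..1, f α ^ 2 with hp
  set q := ∫ α in (0 : ℝ)..1, g α ^ 2 with hq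
  set r := ∫ α in (0 : ℝ)..1, f α * g α with hr
  have hp0 : 0 ≤ p := intervalIntegral.integral_nonneg (by norm_num) fun α _ => sq_nonneg _
  have hq0 : 0 ≤ q := intervalIntegral.integral_nonneg (by norm_num) fun α _ => sq_nonneg _
  have key : ∀ x : ℝ, 0 ≤ p * (x * x) + (-2 * r) * x + q := by
    intro x
    have h1 : 0 ≤ ∫ α in (0 : ℝ)..1, (x * f α - g α) ^ 2 :=
      intervalIntegral.integral_nonneg (by norm_num) fun α _ => sq_nonneg _
    have h2 : ∫ α in (0 : ℝ)..1, (x * f α - g α) ^ 2 =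
        ∫ α in (0 : ℝ)..1, (x ^ 2 * f α ^ 2 - 2 * x * (f α * g α) + g α ^ 2) :=
      intervalIntegral.integral_congr fun α _ => by ring
    rw [h2, intervalIntegral.integral_add ((hf.const_mul _).sub (hfg.const_mul _)) hg,
      intervalIntegral.integral_sub (hf.const_mul _) (hfg.const_mul _),
      intervalIntegral.integral_const_mul, intervalIntegral.integral_const_mul] at h1
    linarith
  have h3 := discrim_le_zero key
  unfold discrim at h3
  have h4 : r ^ 2 ≤ p * q := by nlinarith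
  have h5 : r ^ 2 ≤ P * Q := h4.trans (mul_le_mul hP hQ hq0 (hp0.trans hP))
  exact Real.le_sqrt_of_sq_le h5

theorem t_FR : S_FR := by
  intro T H G A E m a τ hA hH hm0 hτ hE hm hG
  classical
  set hh : ℝ → ℂ := hat (cx H) T with hhd
  set hg : ℝ → ℂ := hat (cx G) T with hgd
  have hhc : Continuous hh := hat_cont _ _
  have hgc : Continuous hg := hat_cont _ _
  have hpar : ∫ α in (0 : ℝ)..1, ‖hg α‖ ^ 2 ≤ a := by
    rw [hgd, parseval]
    refine le_trans (le_of_eq (sum_congr rfl fun s _ => ?_)) hG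
    unfold cx
    rw [Complex.norm_real, Real.norm_eq_abs, sq_abs]
  set φ : ℝ → ℂ := fun α => hg α * (starRingEnd ℂ) (hh α) with hφ
  have hφc : Continuous φ := hgc.mul (Complex.continuous_conj.comp hhc)
  have hφn : ∀ α, ‖φ α‖ = ‖hh α‖ * ‖hg α‖ := by
    intro α
    rw [hφ]
    simp only
    rw [norm_mul, RCLike.norm_conj, mul_comm]
  have hindC : ∀ (B : Set ℝ), MeasurableSet B → ∀ f : ℝ → ℂ, Continuous f →
      IntervalIntegrable (B.indicator f) volume 0 1 := by
    intro B hB f hf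
    have h1 : IntegrableOn f (Set.Ioc 0 1) := by
      rw [← intervalIntegrable_iff_integrableOn_Ioc_of_le (by norm_num)]
      exact hf.intervalIntegrable _ _
    rw [intervalIntegrable_iff_integrableOn_Ioc_of_le (by norm_num)]
    exact h1.indicator hB
  have hindR : ∀ (B : Set ℝ), MeasurableSet B → ∀ f : ℝ → ℝ, Continuous f →
      IntervalIntegrable (B.indicator f) volume 0 1 := by
    intro B hB f hf
    have h1 : IntegrableOn f (Set.Ioc 0 1) := by
      rw [← intervalIntegrable_iff_integrableOn_Ioc_of_le (by norm_num)]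
      exact hf.intervalIntegrable _ _
    rw [intervalIntegrable_iff_integrableOn_Ioc_of_le (by norm_num)]
    exact h1.indicator hB
  set φ1 : ℝ → ℂ := A.indicator φ with hφ1
  set φ2 : ℝ → ℂ := Aᶜ.indicator φ with hφ2
  have hi1 : IntervalIntegrable φ1 volume 0 1 := hindC A hA φ hφc
  have hi2 : IntervalIntegrable φ2 volume 0 1 := hindC Aᶜ hA.compl φ hφc
  have hsplit : ∀ α, φ α = φ1 α + φ2 α := by
    intro α
    rw [hφ1, hφ2]
    by_cases hα : α ∈ A
    · rw [Set.indicator_of_mem hα, Set.indicator_of_notMem (by simpa using hα), add_zero]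
    · rw [Set.indicator_of_notMem hα, Set.indicator_of_mem (by simpa using hα), zero_add]
  have hcor : ∀ D : ℕ, ((∑ s ∈ range T, G s * H (s + D) : ℝ) : ℂ) =
      (∫ α in (0 : ℝ)..1, φ1 α * ee (D * α)) + ∫ α in (0 : ℝ)..1, φ2 α * ee (D * α) := by
    intro D
    have hee : Continuous (fun α : ℝ => ee (D * α)) := ee_cont.comp (by fun_prop)
    have j1 : IntervalIntegrable (fun α => φ1 α * ee (D * α)) volume 0 1 :=
      hi1.mul_continuousOn hee.continuousOn
    have j2 : IntervalIntegrable (fun α => φ2 α * ee (D * α)) volume 0 1 :=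
      hi2.mul_continuousOn hee.continuousOn
    rw [← intervalIntegral.integral_add j1 j2, ← cross G H T hH D]
    refine intervalIntegral.integral_congr fun α _ => ?_
    change φ α * ee (D * α) = φ1 α * ee (D * α) + φ2 α * ee (D * α)
    rw [← add_mul, ← hsplit α]
  -- the major arcs
  have hmaj : ∀ D : ℕ, ‖∫ α in (0 : ℝ)..1, φ1 α * ee (D * α)‖ ≤ Real.sqrt (E * a) := by
    intro D
    have hf2 : (fun α => (A.indicator (fun α => ‖hh α‖) α) ^ 2) =
        A.indicator (fun α => ‖hh α‖ ^ 2) := by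
      funext α
      by_cases hα : α ∈ A
      · rw [Set.indicator_of_mem hα, Set.indicator_of_mem hα]
      · rw [Set.indicator_of_notMem hα, Set.indicator_of_notMem hα]; norm_num
    have hfg : (fun α => (A.indicator (fun α => ‖hh α‖) α) * ‖hg α‖) =
        A.indicator (fun α => ‖hh α‖ * ‖hg α‖) := by
      funext α
      by_cases hα : α ∈ A
      · rw [Set.indicator_of_mem hα, Set.indicator_of_mem hα]
      · rw [Set.indicator_of_notMem hα, Set.indicator_of_notMem hα, zero_mul]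
    have hcs := cs (A.indicator (fun α => ‖hh α‖)) (fun α => ‖hg α‖) (P := E) (Q := a)
      (by rw [hf2]; exact hindR A hA _ (hhc.norm.pow 2))
      ((hgc.norm.pow 2).intervalIntegrable _ _)
      (by rw [hfg]; exact hindR A hA _ (hhc.norm.mul hgc.norm))
      (by rw [hf2]; exact hE) hpar
    calc ‖∫ α in (0 : ℝ)..1, φ1 α * ee (D * α)‖ ≤ ∫ α in (0 : ℝ)..1, ‖φ1 α * ee (D * α)‖ :=
          intervalIntegral.norm_integral_le_integral_norm (by norm_num)
      _ = ∫ α in (0 : ℝ)..1, (A.indicator (fun α => ‖hh α‖) α) * ‖hg α‖ := by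
          refine intervalIntegral.integral_congr fun α _ => ?_
          rw [norm_mul, norm_ee, mul_one]
          by_cases hα : α ∈ A
          · rw [hφ1, Set.indicator_of_mem hα, Set.indicator_of_mem hα, hφn]
          · rw [hφ1, Set.indicator_of_notMem hα, Set.indicator_of_notMem hα, norm_zero, zero_mul]
      _ ≤ _ := hcs
  -- the minor arcs
  set Ex : Finset ℕ := (range T).filter (fun D => τ < ‖∫ α in (0 : ℝ)..1, φ2 α * ee (D * α)‖) with hEx
  refine ⟨Ex, ?_, ?_⟩
  · have hf2 : (fun α => ‖φ2 α‖ ^ 2) = Aᶜ.indicator (fun α => ‖φ α‖ ^ 2) := by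
      funext α
      rw [hφ2]
      by_cases hα : α ∈ Aᶜ
      · rw [Set.indicator_of_mem hα, Set.indicator_of_mem hα]
      · rw [Set.indicator_of_notMem hα, Set.indicator_of_notMem hα]; norm_num
    have hi2s : IntervalIntegrable (fun α => ‖φ2 α‖ ^ 2) volume 0 1 := by
      rw [hf2]
      exact hindR Aᶜ hA.compl _ (hφc.norm.pow 2)
    have hB := bessel2 φ2 hi2 hi2s (hφc.measurable.indicator hA.compl) Ex
    have h1 : (Ex.card : ℝ) * τ ^ 2 ≤ ∑ D ∈ Ex, ‖∫ α in (0 : ℝ)..1, φ2 α * ee (D * α)‖ ^ 2 := by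
      rw [← nsmul_eq_mul, ← sum_const]
      apply sum_le_sum
      intro D hD
      rw [hEx, mem_filter] at hD
      exact pow_le_pow_left₀ hτ.le hD.2.le 2
    have h2 : ∫ α in (0 : ℝ)..1, ‖φ2 α‖ ^ 2 ≤ m ^ 2 * a := by
      calc ∫ α in (0 : ℝ)..1, ‖φ2 α‖ ^ 2 ≤ ∫ α in (0 : ℝ)..1, m ^ 2 * ‖hg α‖ ^ 2 := by
            apply intervalIntegral.integral_mono_on (by norm_num) hi2s
            · exact (continuous_const.mul (hgc.norm.pow 2)).intervalIntegrable _ _
            · intro α hα
              rw [hφ2]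
              by_cases hα2 : α ∈ A
              · rw [Set.indicator_of_notMem (by simpa using hα2), norm_zero, zero_pow two_ne_zero]
                positivity
              · rw [Set.indicator_of_mem (by simpa using hα2), hφn, mul_pow]
                have h3 := hm α hα.1 hα.2 hα2
                gcongr
        _ = m ^ 2 * ∫ α in (0 : ℝ)..1, ‖hg α‖ ^ 2 := by
            rw [intervalIntegral.integral_const_mul]
        _ ≤ m ^ 2 * a := by gcongr
    rw [le_div_iff₀ (by positivity)]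
    linarith
  · intro D hDU hD
    have h1 : ‖∫ α in (0 : ℝ)..1, φ2 α * ee (D * α)‖ ≤ τ := by
      by_contra hcon
      push Not at hcon
      exact hD (by rw [hEx, mem_filter]; exact ⟨mem_range.2 hDU, hcon⟩)
    have h2 := hmaj D
    have h3 : ‖((∑ s ∈ range T, G s * H (s + D) : ℝ) : ℂ)‖ ≤ Real.sqrt (E * a) + τ := by
      rw [hcor D]
      exact (norm_add_le _ _).trans (add_le_add h2 h1)
    rwa [Complex.norm_real, Real.norm_eq_abs] at h3

end Pool.Agent.J4H19.MV
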