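import Pool.Agent.J4H32.MV.S2

/-!
# Project MV: a periodic function against a weight (PV)
-/

set_option autoImplicit false

namespace Pool.Agent.J4H19.MV

open Finset
open Pool.Agent.J4H32.MV
open Pool.Agent.J4H81.PT (TV)

theorem abel (V P : ℕ → ℝ) (hP : P 0 = 0) (T : ℕ) :
    ∑ s ∈ range T, V s * (P (s + 1) - P s) =
      V T * P T - ∑ s ∈ range T, P (s + 1) * (V (s + 1) - V s) := by
  induction T with
  | zero => simp [hP]
  | succ T ih =>
    rw [sum_range_succ, sum_range_succ, ih]
    ring

theorem t_PV : S_PV := by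
  intro L T Φ V hL hper hΦ hV
  set μ : ℝ := (∑ s ∈ range L, Φ s) / L with hμ
  have hLr : (1 : ℝ) ≤ L := by exact_mod_cast hL
  have hL0 : (0 : ℝ) < L := by linarith
  have hμ1 : |μ| ≤ 1 := by
    rw [hμ, abs_div, abs_of_pos hL0, div_le_one hL0]
    calc |∑ s ∈ range L, Φ s| ≤ ∑ s ∈ range L, |Φ s| := abs_sum_le_sum_abs _ _
      _ ≤ ∑ s ∈ range L, (1 : ℝ) := sum_le_sum fun s _ => hΦ s
      _ = L := by simp
  set P : ℕ → ℝ := fun s => ∑ r ∈ range s, (Φ r - μ) with hP
  have hP0 : P 0 = 0 := by simp [hP]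
  have hPL : ∀ s, P (s + L) = P s := by
    intro s
    induction s with
    | zero =>
      rw [zero_add, hP0]
      simp only [hP, sum_sub_distrib, sum_const, card_range, nsmul_eq_mul]
      rw [hμ]
      field_simp
      ring
    | succ s ih =>
      have e1 : P (s + 1 + L) = P (s + L) + (Φ (s + L) - μ) := by
        rw [show s + 1 + L = (s + L) + 1 by ring]
        exact sum_range_succ _ _
      have e2 : P (s + 1) = P s + (Φ s - μ) := sum_range_succ _ _
      rw [e1, e2, ih, hper]
  have hPb : ∀ s, |P s| ≤ 2 * L := by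
    intro s
    induction s using Nat.strong_induction_on with
    | _ s ih =>
      rcases lt_or_ge s L with h | h
      · calc |P s| ≤ ∑ r ∈ range s, |Φ r - μ| := abs_sum_le_sum_abs _ _
          _ ≤ ∑ r ∈ range s, (2 : ℝ) := by
            refine sum_le_sum fun r _ => ?_
            have h1 := abs_sub (Φ r) μ
            have h2 := hΦ r
            linarith
          _ = 2 * s := by simp; ring
          _ ≤ 2 * L := by
            have : (s : ℝ) ≤ L := by exact_mod_cast h.le
            linarith
      · obtain ⟨r, rfl⟩ := Nat.exists_eq_add_of_le' h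
        rw [hPL]
        exact ih r (by omega)
  have h1 : ∑ s ∈ range T, V s * Φ s - μ * ∑ s ∈ range T, V s =
      ∑ s ∈ range T, V s * (P (s + 1) - P s) := by
    rw [mul_sum, ← sum_sub_distrib]
    refine sum_congr rfl fun s _ => ?_
    have e2 : P (s + 1) = P s + (Φ s - μ) := sum_range_succ _ _
    rw [e2]
    ring
  rw [h1, abel V P hP0, hV, zero_mul, zero_sub, abs_neg]
  calc |∑ s ∈ range T, P (s + 1) * (V (s + 1) - V s)|
      ≤ ∑ s ∈ range T, |P (s + 1) * (V (s + 1) - V s)| := abs_sum_le_sum_abs _ _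
    _ ≤ ∑ s ∈ range T, 2 * L * |V (s + 1) - V s| := by
      refine sum_le_sum fun s _ => ?_
      rw [abs_mul]
      exact mul_le_mul_of_nonneg_right (hPb _) (abs_nonneg _)
    _ = 2 * L * ∑ s ∈ range T, |V (s + 1) - V s| := by rw [mul_sum]
    _ ≤ 2 * L * TV V T := by
      unfold TV
      have := abs_nonneg (V 0)
      have h2 : 0 ≤ 2 * (L : ℝ) * |V 0| := by positivity
      nlinarith

end Pool.Agent.J4H19.MV
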